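import Pool.Agent.Helper32.B4.St

set_option autoImplicit false

open Metric Set Filter Topology MeasureTheory
open scoped ComplexConjugate Interval

namespace Pool.Agent.Helper79.B4

open Pool.Agent.Helper32.B4

theorem parts_QI (g h : ℝ → ℝ) (hg : Measurable g) (hh : Measurable h) (C D : ℝ)
    (hC : ∀ u ∈ Ioc (0 : ℝ) 1, |g u| ≤ C) (hD : ∀ u ∈ Ioc (0 : ℝ) 1, |h u| ≤ D) :
    ∫ u in (0:ℝ)..1, g u * tl h u =
      (∫ u in (0:ℝ)..1, g u) * (∫ u in (0:ℝ)..1, h u) - ∫ u in (0:ℝ)..1, tl g u * h u := by
  have ig : ∀ a ∈ Icc (0:ℝ) 1, ∀ b ∈ Icc (0:ℝ) 1, IntervalIntegrable g volume a b := by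
    intro a ha b hb
    refine ii_of_bdd (C := C) hg.aestronglyMeasurable fun u hu => ?_
    rw [mem_uIoc] at hu
    refine hC u ?_
    rcases hu with hu | hu
    · exact ⟨lt_of_le_of_lt ha.1 hu.1, hu.2.trans hb.2⟩
    · exact ⟨lt_of_le_of_lt hb.1 hu.1, hu.2.trans ha.2⟩
  set μ : Measure ℝ := volume.restrict (Ioc (0 : ℝ) 1) with hμ
  have hint : Integrable (Function.uncurry fun u v : ℝ => if u < v then g u * h v else 0)
      (μ.prod μ) := by
    have hm : Measurable (Function.uncurry fun u v : ℝ => if u < v then g u * h v else 0) :=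
      Measurable.ite (measurableSet_lt measurable_fst measurable_snd)
        ((hg.comp measurable_fst).mul (hh.comp measurable_snd)) measurable_const
    refine Integrable.of_bound hm.aestronglyMeasurable (C * D) ?_
    rw [hμ, Measure.prod_restrict, ae_restrict_iff' (measurableSet_Ioc.prod measurableSet_Ioc)]
    refine Eventually.of_forall ?_
    rintro ⟨u, v⟩ ⟨hu, hv⟩
    have h1 := hC u hu
    have h2 := hD v hv
    have hC0 : 0 ≤ C := (abs_nonneg _).trans h1
    have hD0 : 0 ≤ D := (abs_nonneg _).trans h2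
    simp only [Function.uncurry]
    split_ifs
    · rw [Real.norm_eq_abs, abs_mul]
      exact mul_le_mul h1 h2 (abs_nonneg _) hC0
    · rw [norm_zero]
      exact mul_nonneg hC0 hD0
  have hswap := integral_integral_swap hint
  have hL : ∫ u, ∫ v, (if u < v then g u * h v else 0) ∂μ ∂μ = ∫ u in (0:ℝ)..1, g u * tl h u := by
    rw [intervalIntegral.integral_of_le zero_le_one]
    refine setIntegral_congr_fun measurableSet_Ioc fun u hu => ?_
    have e1 : (fun v : ℝ => if u < v then g u * h v else 0) =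
        (Ioi u).indicator (fun v => g u * h v) := by
      funext v
      by_cases h1 : u < v
      · rw [if_pos h1, indicator_of_mem (show v ∈ Ioi u from h1)]
      · rw [if_neg h1, indicator_of_notMem (show v ∉ Ioi u from h1)]
    have e2 : Ioc (0 : ℝ) 1 ∩ Ioi u = Ioc u 1 := by
      ext v
      simp only [mem_inter_iff, mem_Ioc, mem_Ioi]
      constructor
      · rintro ⟨⟨_, h2⟩, h3⟩
        exact ⟨h3, h2⟩
      · rintro ⟨h1, h2⟩
        exact ⟨⟨hu.1.trans h1, h2⟩, h1⟩
    rw [e1, hμ, setIntegral_indicator measurableSet_Ioi, e2, integral_const_mul, tl,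
      intervalIntegral.integral_of_le hu.2]
  have hR : ∫ v, ∫ u, (if u < v then g u * h v else 0) ∂μ ∂μ =
      ∫ v in (0:ℝ)..1, ((∫ u in (0:ℝ)..1, g u) - tl g v) * h v := by
    rw [intervalIntegral.integral_of_le zero_le_one]
    refine setIntegral_congr_fun measurableSet_Ioc fun v hv => ?_
    have e1 : (fun u : ℝ => if u < v then g u * h v else 0) =
        (Iio v).indicator (fun u => g u * h v) := by
      funext u
      by_cases h1 : u < v
      · rw [if_pos h1, indicator_of_mem (show u ∈ Iio v from h1)]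
      · rw [if_neg h1, indicator_of_notMem (show u ∉ Iio v from h1)]
    have e2 : Ioc (0 : ℝ) 1 ∩ Iio v = Ioo 0 v := by
      ext u
      simp only [mem_inter_iff, mem_Ioc, mem_Iio, mem_Ioo]
      constructor
      · rintro ⟨⟨h1, _⟩, h3⟩
        exact ⟨h1, h3⟩
      · rintro ⟨h1, h2⟩
        exact ⟨⟨h1, (h2.trans_le hv.2).le⟩, h2⟩
    have e3 : (∫ u in (0:ℝ)..1, g u) - tl g v = ∫ u in (0:ℝ)..v, g u := by
      have := intervalIntegral.integral_add_adjacent_intervals
        (ig 0 ⟨le_rfl, zero_le_one⟩ v ⟨hv.1.le, hv.2⟩) (ig v ⟨hv.1.le, hv.2⟩ 1 ⟨zero_le_one, le_rfl⟩)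
      rw [tl, ← this]
      ring
    rw [e1, hμ, setIntegral_indicator measurableSet_Iio, e2, integral_mul_const, e3,
      intervalIntegral.integral_of_le hv.1.le, integral_Ioc_eq_integral_Ioo]
  rw [hL, hR] at hswap
  have hih : IntervalIntegrable h volume 0 1 := by
    refine ii_of_bdd (C := D) hh.aestronglyMeasurable fun u hu => ?_
    rw [uIoc_of_le zero_le_one] at hu
    exact hD u hu
  have htl : ContinuousOn (tl g) (uIcc 0 1) := by
    have h1 := intervalIntegral.continuousOn_primitive_interval' (f := g) (a := 1)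
      (ig 0 ⟨le_rfl, zero_le_one⟩ 1 ⟨zero_le_one, le_rfl⟩) (by rw [uIcc_of_le zero_le_one]; exact ⟨zero_le_one, le_rfl⟩)
    have h2 : tl g = fun u => -∫ v in (1:ℝ)..u, g v := by
      funext u
      rw [tl, intervalIntegral.integral_symm]
    rw [h2]
    exact h1.neg
  have hi2 : IntervalIntegrable (fun u => tl g u * h u) volume 0 1 :=
    (hih.continuousOn_mul htl)
  have hsub : ∫ v in (0:ℝ)..1, ((∫ u in (0:ℝ)..1, g u) - tl g v) * h v =
      (∫ u in (0:ℝ)..1, g u) * (∫ u in (0:ℝ)..1, h u) - ∫ u in (0:ℝ)..1, tl g u * h u := by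
    rw [← intervalIntegral.integral_const_mul, ← intervalIntegral.integral_sub (hih.const_mul _) hi2]
    refine intervalIntegral.integral_congr fun v _ => ?_
    ring
  rw [hswap, hsub]

theorem hQI : StQI := by
  intro s hs hb
  obtain ⟨C, hC⟩ := hb
  have hC0 : 0 ≤ C := (abs_nonneg _).trans (hC 0)
  have is : ∀ a b : ℝ, IntervalIntegrable s volume a b := fun a b =>
    ii_of_bdd (C := C) hs.aestronglyMeasurable fun u _ => hC u
  have hvs : Measurable (fun v : ℝ => v * s v) := measurable_id.mul hs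
  have ivs : ∀ a b : ℝ, IntervalIntegrable (fun v => v * s v) volume a b := fun a b =>
    (is a b).continuousOn_mul continuousOn_id
  have ct : Continuous (tl s) := continuous_tl is
  have ctv : Continuous (tl (fun v => v * s v)) := continuous_tl ivs
  have is2 : IntervalIntegrable (fun u => s u ^ 2) volume 0 1 := by
    refine ii_of_bdd (C := C ^ 2) (hs.pow_const 2).aestronglyMeasurable fun u _ => ?_
    rw [Real.norm_eq_abs, abs_pow]
    exact pow_le_pow_left₀ (abs_nonneg _) (hC u) 2
  have is3 : IntervalIntegrable (fun u => (24 * u - 16 * u ^ 2) * s u ^ 2) volume 0 1 :=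
    is2.continuousOn_mul (by fun_prop)
  have hin : ∀ u : ℝ, ∫ v in u..1, (6 - 3 * u - 2 * v) * s v =
      (6 - 3 * u) * tl s u - 2 * tl (fun v => v * s v) u := by
    intro u
    unfold tl
    rw [← intervalIntegral.integral_const_mul, ← intervalIntegral.integral_const_mul,
      ← intervalIntegral.integral_sub ((is u 1).const_mul _) ((ivs u 1).const_mul _)]
    refine intervalIntegral.integral_congr fun v _ => ?_
    ring
  have iP : IntervalIntegrable (fun u => s u * tl s u) volume 0 1 :=
    (is 0 1).mul_continuousOn ct.continuousOn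
  have iK : IntervalIntegrable (fun u => u * s u * tl s u) volume 0 1 :=
    (ivs 0 1).mul_continuousOn ct.continuousOn
  have iR : IntervalIntegrable (fun u => s u * tl (fun v => v * s v) u) volume 0 1 :=
    (is 0 1).mul_continuousOn ctv.continuousOn
  have h1 : ∫ u in (0:ℝ)..1, (10 - 24 * u + 16 * u ^ 2) * s u ^ 2 =
      10 * (∫ u in (0:ℝ)..1, s u ^ 2) - ∫ u in (0:ℝ)..1, (24 * u - 16 * u ^ 2) * s u ^ 2 := by
    rw [← intervalIntegral.integral_const_mul, ← intervalIntegral.integral_sub (is2.const_mul _) is3]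
    refine intervalIntegral.integral_congr fun v _ => ?_
    ring
  have h2 : ∫ u in (0:ℝ)..1, s u * ∫ v in u..1, (6 - 3 * u - 2 * v) * s v =
      6 * (∫ u in (0:ℝ)..1, s u * tl s u) - 3 * (∫ u in (0:ℝ)..1, u * s u * tl s u) -
        2 * ∫ u in (0:ℝ)..1, s u * tl (fun v => v * s v) u := by
    rw [← intervalIntegral.integral_const_mul, ← intervalIntegral.integral_const_mul,
      ← intervalIntegral.integral_const_mul,
      ← intervalIntegral.integral_sub (iP.const_mul _) (iK.const_mul _),
      ← intervalIntegral.integral_sub ((iP.const_mul _).sub (iK.const_mul _)) (iR.const_mul _)]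
    refine intervalIntegral.integral_congr fun u _ => ?_
    rw [hin]
    ring
  have h3 := parts_QI s s hs hs C C (fun u _ => hC u) (fun u _ => hC u)
  have h4 := parts_QI s (fun v => v * s v) hs hvs C C (fun u _ => hC u) (fun u hu => by
    rw [abs_mul, abs_of_pos hu.1]
    calc u * |s u| ≤ 1 * C := mul_le_mul hu.2 (hC u) (abs_nonneg _) zero_le_one
      _ = C := one_mul C)
  have e3 : ∫ u in (0:ℝ)..1, tl s u * s u = ∫ u in (0:ℝ)..1, s u * tl s u :=
    intervalIntegral.integral_congr fun u _ => mul_comm _ _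
  have e4 : ∫ u in (0:ℝ)..1, tl s u * (u * s u) = ∫ u in (0:ℝ)..1, u * s u * tl s u :=
    intervalIntegral.integral_congr fun u _ => mul_comm _ _
  rw [e3] at h3
  rw [e4] at h4
  rw [Qf, h1, h2, h4]
  linear_combination 24 * h3

end Pool.Agent.Helper79.B4
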